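import Pool.Agent.Lib_helper29.OCN.Nested
import Pool.Agent.Lib_helper29.OCN.Game

/-!
# MP_aeb124_co: from closed classes on `G * q` vertices to the game on all large numbers of vertices
-/

set_option autoImplicit false

namespace Pool.Agent.OCN

section

variable {V V' : Type} [Fintype V] [Fintype V']

theorem newP_comap {f : V → V'} (hf : Function.Injective f) (r r' : V' → V' → Prop) :
    newP (fun x y => r (f x) (f y)) (fun x y => r' (f x) (f y)) ≤ newP r r' := by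
  classical
  unfold newP
  refine Finset.card_le_card_of_injOn (Prod.map f f) ?_ ?_
  · rintro ⟨a, b⟩ h
    have h1 := (Finset.mem_filter.1 (Finset.mem_coe.1 h)).2
    exact Finset.mem_coe.2 (Finset.mem_filter.2 ⟨Finset.mem_univ _, h1⟩)
  · exact (hf.prodMap hf).injOn

/-- a closed class may be restricted to a subset of the vertices -/
theorem ClosedR.comap {B : ℕ} {G : Set (V' → V' → Prop)} (h : ClosedR B G) {f : V → V'}
    (hf : Function.Injective f) :
    ClosedR B {r : V → V → Prop | ∃ s ∈ G, r = fun x y => s (f x) (f y)} := by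
  rintro r ⟨s, hs, rfl⟩ x y hxy h1 h2
  obtain ⟨s', hs', h3, h4, h5⟩ := h s hs (f x) (f y) (fun h => hxy (hf h)) h1 h2
  exact ⟨_, ⟨s', hs', rfl⟩, fun a b hab => h3 _ _ hab, h4, (newP_comap hf s s').trans h5⟩

theorem SO.comap {s : V' → V' → Prop} (h : SO s) (f : V → V') :
    SO fun x y => s (f x) (f y) where
  irr := fun _ => h.irr _
  tr := fun _ _ _ h1 h2 => h.tr _ _ _ h1 h2

end

/-- more moves for OBreaker do not hurt him -/
theorem ClosedR.mono_budget {V : Type} [Fintype V] {B B' : ℕ} {G : Set (V → V → Prop)}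
    (h : ClosedR B G) (hB : B ≤ B') : ClosedR B' G := by
  intro r hr x y hxy h1 h2
  obtain ⟨r', g1, g2, g3, g4⟩ := h r hr x y hxy h1 h2
  exact ⟨r', g1, g2, g3, g4.trans hB⟩

/-- a plan on `G * q` vertices with the budget `K * q + R0` -/
def Plan (K G R0 q : ℕ) : Prop :=
  ∃ C : Set (Fin (G * q) → Fin (G * q) → Prop), (fun _ _ => False) ∈ C ∧ (∀ r ∈ C, SO r) ∧
    ClosedR (K * q + R0) C

/-- from plans to the game -/
theorem obreaker_of_plan {K G R0 q1 : ℕ} (hG : 1 ≤ G) (h : ∀ q, q1 ≤ q → Plan K G R0 q) :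
    ∀ ε : ℝ, 0 < ε → ∃ N : ℕ, ∀ n : ℕ, N ≤ n → ∀ b : ℕ,
      ((K : ℝ) / G + ε) * (n : ℝ) ≤ (b : ℝ) → ¬ OMakerWins n b := by
  intro ε hε
  have hG' : (0 : ℝ) < G := by exact_mod_cast hG
  obtain ⟨m, hm⟩ := exists_nat_gt (((K : ℝ) + R0) / ε)
  refine ⟨max m (G * q1), fun n hn b hb hwin => ?_⟩
  have hmn : (m : ℝ) ≤ n := by exact_mod_cast (le_max_left _ _).trans hn
  have hqn : G * q1 ≤ n := (le_max_right _ _).trans hn
  have h1 : (K : ℝ) + R0 < n * ε := (div_lt_iff₀ hε).1 (lt_of_lt_of_le hm hmn)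
  -- the number of the vertices is rounded up
  obtain ⟨q, hq⟩ : ∃ q, q = n / G + 1 := ⟨_, rfl⟩
  have h2 : n ≤ G * q := by
    have := Nat.lt_mul_div_succ n (show 0 < G by omega)
    rw [hq]
    exact this.le
  have h3 : G * q ≤ n + G := by
    rw [hq, Nat.mul_add, Nat.mul_one]
    exact Nat.add_le_add_right (Nat.mul_div_le n G) G
  have h4 : q1 ≤ q := by
    by_contra hcon
    have h5 : q + 1 ≤ q1 := by omega
    have h6 : G * (q + 1) ≤ G * q1 := Nat.mul_le_mul_left _ h5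
    have h7 : n < G * q := by
      rw [hq]
      exact Nat.lt_mul_div_succ n (show 0 < G by omega)
    rw [Nat.mul_add] at h6
    omega
  obtain ⟨C, c1, c2, c3⟩ := h q h4
  have h5 : K * q + R0 ≤ b := by
    have h6 : ((K * q + R0 : ℕ) : ℝ) ≤ b := by
      push_cast
      have h7 : (G : ℝ) * q ≤ n + G := by exact_mod_cast h3
      have h8 : (q : ℝ) ≤ n / G + 1 := by
        rw [show (n : ℝ) / G + 1 = (n + G) / G by field_simp, le_div_iff₀ hG']
        linarith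
      have h9 : (K : ℝ) * q ≤ K * (n / G + 1) :=
        mul_le_mul_of_nonneg_left h8 (Nat.cast_nonneg _)
      have h10 : (K : ℝ) * (n / G + 1) = K / G * n + K := by ring
      linarith
    exact_mod_cast h6
  refine not_OMakerWins_of_class
    (G := {r : Fin n → Fin n → Prop | ∃ s ∈ C, r = fun x y => s (Fin.castLE h2 x) (Fin.castLE h2 y)})
    ⟨_, c1, rfl⟩ ?_ ((c3.mono_budget h5).comap (Fin.castLE_injective h2)) hwin
  rintro r ⟨s, hs, rfl⟩
  exact (c2 s hs).comap _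

/-- a plan from a list of cells of three kinds and end classes -/
theorem plan_of_cellsE {K G S C R0 q0 : ℕ} {c : ℕ → CellV}
    (hR : 1 + S + S * S ≤ R0) (hC : 1 ≤ C)
    (hok : ∀ e < C, okCV K G S (c e) = true) (hN : ∀ e < C, okNV c C e = true)
    (h0 : (c 0).N = 0 ∧ (c 0).M = 0 ∧ (c 0).y = 0 ∧ 1 ≤ (c 0).x ∧ (c 0).x ≤ G)
    (hE : ∀ q, q0 ≤ q → ∃ E : Set (Fin (G * q) → Fin (G * q) → Prop), (∀ r ∈ E, SO r) ∧
      ClosedR (K * q + R0) E ∧ ∀ (r : Fin (G * q) → Fin (G * q) → Prop) (o N M y x : ℕ),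
        VExit c C q N M y x → 1 ≤ x → P1e r (G * q) o y N x M → r ∈ E) :
    ∀ q, q0 + (2 * S + 1) ≤ q → Plan K G R0 q := by
  intro q hq
  obtain ⟨E, hE1, hE2, hE3⟩ := hE q (by omega)
  obtain ⟨e1, e2, e3, e4, e5⟩ := h0
  have hx0 : q * (c 0).x ≤ Fintype.card (Fin (G * q)) := by
    rw [Fintype.card_fin]
    calc q * (c 0).x ≤ q * G := Nat.mul_le_mul_left _ e5
      _ = G * q := Nat.mul_comm _ _
  have hx1 : 1 ≤ q * (c 0).x := Nat.mul_pos (by omega) e4
  have h00 : VDom c C q 0 0 0 (q * (c 0).x) := by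
    refine ⟨0, hC, q, 0, 0, 0, ⟨by omega, by rw [e1]; simp, by rw [e2]; simp,
      by rw [e3]; simp, by simp⟩, ?_⟩
    rcases okCV_ty (hok 0 hC) with h | h | h
    · exact Or.inl ⟨h, Or.inr rfl⟩
    · exact Or.inr (Or.inl ⟨h, Or.inl rfl⟩)
    · exact Or.inr (Or.inr ⟨h, rfl⟩)
  have hst := P1e.start (V := Fin (G * q)) (q * (c 0).x) hx0
  rw [Fintype.card_fin] at hst
  refine ⟨E ∪ {r | ∃ o y N x M, P1e r (G * q) o y N x M ∧ (VDom c C q N M y x ∧ 1 ≤ x)},
    Or.inr ⟨_, _, _, _, _, hst, h00, hx1⟩, ?_, ?_⟩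
  · rintro r (h1 | ⟨o, y, N, x, M, h1, _⟩)
    · exact hE1 r h1
    · exact h1.p1s.so
  · exact P1e.cellsV (n := G * q) (by omega) (by omega) le_rfl hok hN
      (fun r o N M y x h1 h2 h3 => hE3 r o N M y x h1 h2 h3)
      (fun r hr => ((closedR_iff _ _).1 hE2 r hr).mono Set.subset_union_left)

/-- a plan from a table -/
theorem plan_of_tab {K G g S C R0 q0 : ℕ} {p : XPar} {T XT : BT}
    (hκ : p.κ ≤ 2) (hR : 1 + S + S * S ≤ R0) (hC : 1 ≤ C)
    (tab : ∀ e < C, okCV K G S (cgetV T e) = true ∧ okNV (cgetV T) C e = true ∧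
      okXT p G g C XT (cgetV T e) = true)
    (h0 : (cgetV T 0).N = 0 ∧ (cgetV T 0).M = 0 ∧ (cgetV T 0).y = 0 ∧ 1 ≤ (cgetV T 0).x ∧
      (cgetV T 0).x ≤ G)
    (hE : ∀ q, q0 ≤ q → ∃ E : Set (Fin (G * q) → Fin (G * q) → Prop), (∀ r ∈ E, SO r) ∧
      ClosedR (K * q + R0) E ∧ ∀ (r : Fin (G * q) → Fin (G * q) → Prop) (o N M y x : ℕ),
        P1e r (G * q) o y N x M → Ent p G g q N M y x → r ∈ E) :
    ∀ q, q0 + qX p G g + (2 * S + 1) ≤ q → Plan K G R0 q := by
  refine plan_of_cellsE (q0 := q0 + qX p G g) hR hC (fun e he => (tab e he).1)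
    (fun e he => (tab e he).2.1) h0 fun q hq => ?_
  obtain ⟨E, hE1, hE2, hE3⟩ := hE q (by omega)
  refine ⟨E, hE1, hE2, fun r o N M y x h1 _ h3 => hE3 r o N M y x h3 ?_⟩
  have h4 : OnX p G g q N M y x :=
    h1.onX (X := xget XT) fun e he => by
      rw [← okXT_eq]
      exact (tab e he).2.2
  exact h4.ent hκ (by omega)

/-- a plan from three nested tables -/
theorem plan_of_tab3 {K G g S S' S'' C C' C'' R0 q0 : ℕ} {p : XPar} {T XT T' F' T'' F'' : BT}
    (hκ : p.κ ≤ 2) (hR : 1 + S + S * S ≤ R0)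
    (hR' : 1 + S' + S' * S' ≤ R0) (hR'' : 1 + S'' + S'' * S'' ≤ R0) (hC : 1 ≤ C'')
    (tab : ∀ e < C, okCV K G S (cgetV T e) = true ∧ okNV (cgetV T) C e = true ∧
      okXT p G g C XT (cgetV T e) = true)
    (tab' : ∀ e < C', okCV (2 * K) (2 * G) S' (cgetV T' e) = true ∧
      okNV (cgetV T') C' e = true ∧ okF 2 C (cgetV T) C' (fget2 F') (cgetV T' e) = true)
    (tab'' : ∀ e < C'', okCV (2 * (2 * K)) (2 * (2 * G)) S'' (cgetV T'' e) = true ∧
      okNV (cgetV T'') C'' e = true ∧ okF 2 C' (cgetV T') C'' (fget2 F'') (cgetV T'' e) = true)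
    (h0 : (cgetV T'' 0).N = 0 ∧ (cgetV T'' 0).M = 0 ∧ (cgetV T'' 0).y = 0 ∧
      1 ≤ (cgetV T'' 0).x ∧ (cgetV T'' 0).x ≤ 2 * (2 * G))
    (hE : ∀ q, q0 ≤ q → ∃ E : Set (Fin (G * q) → Fin (G * q) → Prop), (∀ r ∈ E, SO r) ∧
      ClosedR (K * q + R0) E ∧ ∀ (r : Fin (G * q) → Fin (G * q) → Prop) (o N M y x : ℕ),
        P1e r (G * q) o y N x M → Ent p G g q N M y x → r ∈ E) :
    ∀ q, q0 + qX p G g + (2 * S + 1) + (2 * S' + 1) + (2 * S'' + 1) ≤ q →
      Plan (2 * (2 * K)) (2 * (2 * G)) R0 q := by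
  refine plan_of_cellsE (q0 := q0 + qX p G g + (2 * S + 1) + (2 * S' + 1)) hR'' hC
    (fun e he => (tab'' e he).1) (fun e he => (tab'' e he).2.1) h0 fun q hq => ?_
  have e1 : 2 * (2 * G) * q = G * (2 * (2 * q)) := by ring
  have e2 : 2 * (2 * K) * q = K * (2 * (2 * q)) := by ring
  have e3 : 2 * K * (2 * q) = K * (2 * (2 * q)) := by ring
  have e4 : 2 * G * (2 * q) = G * (2 * (2 * q)) := by ring
  rw [e1, e2]
  obtain ⟨E, hE1, hE2, hE3⟩ := hE (2 * (2 * q)) (by omega)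
  -- level 0
  obtain ⟨a1, a2⟩ := PDom.add (n := G * (2 * (2 * q))) (u := 2 * (2 * q)) (c := cgetV T) (C := C)
    (S := S) (by omega) (by omega) le_rfl (fun e he => (tab e he).1) (fun e he => (tab e he).2.1)
    hE1 hE2 fun r o N M y x h1 _ h3 => hE3 r o N M y x h3 <| by
      have h4 : OnX p G g (2 * (2 * q)) N M y x :=
        h1.onX (X := xget XT) fun e he => by
          rw [← okXT_eq]
          exact (tab e he).2.2
      exact h4.ent hκ (by omega)
  -- level 1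
  obtain ⟨b1, b2⟩ := PDom.add (n := G * (2 * (2 * q))) (u := 2 * q) (c := cgetV T') (C := C')
    (S := S') (K := 2 * K) (G := 2 * G) (by omega) (by omega) (le_of_eq e4)
    (fun e he => (tab' e he).1) (fun e he => (tab' e he).2.1) a1 a2
    fun r o N M y x h1 h2 h3 => Or.inr ⟨o, y, N, x, M, h3,
      h1.coarse (fun e he => (tab e he).1) (fun e he => (tab' e he).2.2), h2⟩
  -- level 2
  exact ⟨_, b1, b2, fun r o N M y x h1 h2 h3 => Or.inr ⟨o, y, N, x, M, h3,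
    h1.coarse (fun e he => (tab' e he).1) (fun e he => (tab'' e he).2.2), h2⟩⟩

end Pool.Agent.OCN
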