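import Pool.Agent.Lib_helper29.OCN.Fin239
import Pool.Agent.Lib_helper30.OCN.AllN

/-!
# MP_aeb124_co: OBreaker wins for every bias `b ≥ (239 / 338 + ε) n` and all large `n`, from the theorem
on the game of numbers
-/

set_option autoImplicit false

namespace Pool.Agent.OCN

theorem plan239 (hNum : NumThm Tab239P) :
    ∃ q1, ∀ q, q1 ≤ q → Plan (2 * (2 * 239)) (2 * (2 * 338)) 43 q := by
  obtain ⟨q₀, hq⟩ := ent_mem (K := 239) (H := 338) (g := 99) (R0 := 43) hNum (by decide) (by decide)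
    (by norm_num) rfl (by norm_num)
  refine ⟨_, plan_of_tab3 (K := 239) (G := 338) (g := 99) (S := 5) (S' := 6) (S'' := 6)
    (C := 12683) (C' := 11308) (C'' := 14055) (R0 := 43) (q0 := q₀) (p := Tab239P)
    (T := Tab239L0C) (XT := Tab239L0X) (T' := Tab239L1C) (F' := Tab239L1X) (T'' := Tab239L2C)
    (F'' := Tab239L2X) (by decide) (by norm_num) (by norm_num) (by norm_num) (by norm_num)
    (fun _ he => Tab239L0_ok he) (fun _ he => Tab239L1_ok he) (fun _ he => Tab239L2_ok he)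
    ⟨Tab239L2_start.1, Tab239L2_start.2.1, Tab239L2_start.2.2.1, ?_, ?_⟩ fun q hq0 => ?_⟩
  · rw [Tab239L2_start.2.2.2]
    norm_num
  · rw [Tab239L2_start.2.2.2]
    norm_num
  · exact ⟨EX (239 * q + 43) (Cls (TG (239 * q + 43))), EX_so (fun r hr => cls_so hr),
      EX_closed (tg_closed _) (endOK_TG _), fun r o N M y x hr he =>
        hq q hq0 hr (by have := hr.card; omega) he _⟩

theorem obreaker239 (hNum : NumThm Tab239P) :
    ∀ ε : ℝ, 0 < ε → ∃ N : ℕ, ∀ n : ℕ, N ≤ n → ∀ b : ℕ,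
      (239 / 338 + ε) * (n : ℝ) ≤ (b : ℝ) → ¬ OMakerWins n b := by
  obtain ⟨q1, h⟩ := plan239 hNum
  intro ε hε
  obtain ⟨N, hN⟩ := obreaker_of_plan (by norm_num) h ε hε
  refine ⟨N, fun n hn b hb => hN n hn b ?_⟩
  have e : (((2 * (2 * 239) : ℕ) : ℝ) / ((2 * (2 * 338) : ℕ) : ℝ)) = 239 / 338 := by
    push_cast
    norm_num
  rw [e]
  exact hb

end Pool.Agent.OCN
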