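import Pool.Agent.Lib_helper16.OCN.YcJ_All

/-!
# MP_aeb124_co: number game, attacks when the window is closed (block A1)
-/

set_option autoImplicit false

namespace Pool.Agent.OCN.YC

variable {P : Par} {σ σ' : St} {I : ℕ} {v : Vd}

theorem A1_K (P : Par) : 51 ≤ P.K := by
  have h1 := P.hR
  have h2 := P.hK
  have h3 : P.R0 ≤ kap P.Q P.R0 := (Nat.le_add_right _ _).trans (Nat.le_add_right _ _)
  omega

theorem A1_al (f : ℕ) (v : Vd) : al f v ≤ 8 * (v.c : ℤ) + 64 := by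
  unfold al
  have hc : (0 : ℤ) ≤ v.c := Int.natCast_nonneg _
  split_ifs
  · linarith
  · have h1 : min (max 0 ((v.c : ℤ) - v.m)) (f : ℤ) ≤ v.c :=
      (min_le_left _ _).trans (max_le hc (by have : (0 : ℤ) ≤ v.m := Int.natCast_nonneg _; linarith))
    linarith

/-- the height over the line -/
theorem A1_y (h : CL P σ v) : v.c ≤ P.f + v.m + 12 ∧ v.X ≤ 12 * (v.c + 1) := by
  have h1 := h.jc.yi
  constructor
  · by_contra hcon
    have h2 : 13 ≤ v.c - (P.f + v.m) := by omega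
    have h3 : (v.c + 1) * 13 ≤ (v.c + 1) * (v.c - (P.f + v.m)) := Nat.mul_le_mul_left _ h2
    omega
  · have h3 := Nat.zero_le ((v.c + 1) * (v.c - (P.f + v.m)))
    omega

theorem A1_ps (h : CL P σ v) :
    T4 P σ.o ≤ Psi P σ.o 0 v + 8 * ((v.c : ℤ) + P.K + 20) + 64 := by
  have h1 := h.jc.ps
  have h2 := A1_al P.f v
  have h3 : (0 : ℤ) ≤ P.K := Int.natCast_nonneg _
  push_cast at h1
  linarith

theorem A1_bar (h : CL P σ v) :
    2 * v.c + 12 * P.K ≤ σ.o ∧ 2 * v.E + 12 * P.K ≤ σ.o ∧ 12 * P.K ≤ σ.o :=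
  bar h.jc.sn h.jc.y (A1_ps h)

/-- `P` holds always -/
theorem A1_pp (h : CL P σ v) : TP P σ.o v ≤ Pee P σ.o 0 v := by
  by_cases hμ : 1 ≤ σ.μ
  · have h1 := h.jc.pp (Or.inl hμ)
    push_cast at h1
    linarith
  · have h1 := h.jc.sn
    rw [show σ.μ = 0 by omega] at h1
    have h2 := psip h1 h.jc.y (Nat.zero_le P.Q) (A1_y h).2 (A1_ps h)
    have h3 : (0 : ℤ) ≤ σ.o := Int.natCast_nonneg _
    linarith

theorem ok_CL (h : CL P σ v) : Ok P.W σ := by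
  obtain ⟨b1, b2, b3⟩ := A1_bar h
  have hK := A1_K P
  have ha := h.jc.a
  have hE := h.jc.sn.hE
  obtain ⟨τ, γ, -, hj, -⟩ := h.jc.sn.hR
  exact
    { n0 := fun _ => h.r
      o1 := by omega
      eR := by omega
      eA := fun h1 => by omega
      f1 := fun j hj1 => by
        have := hj j hj1
        omega
      w1 := by rw [ha, mul_zero]; exact Nat.zero_le _
      w2 := Or.inr fun j hj1 => by
        have := hj j hj1
        rw [ha, mul_zero]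
        omega
      w3 := fun h1 => by omega }

/-- left attack -/
theorem A1_L {o r u μ ν cb : ℕ} {β : Multiset ℕ} (h : CL P ⟨o + 1, 0, r, u, μ, ν, cb, β⟩ v)
    (hI : o ≤ I + v.E) (hI2 : I ≤ o + 1) : Good P ⟨o, 0, r, u, μ, ν, cb, β⟩ I := by
  have hK := A1_K P
  have hK' : (51 : ℤ) ≤ P.K := by exact_mod_cast hK
  obtain ⟨p1, p2, p3⟩ := st_L_pot (P := P) (v := v) (o := o) (ra := 0) (ra' := 0) (I := I)
    (by omega)
  have q1 : T4 P (o + 1) ≤ Psi P (o + 1) 0 v + 8 * (0 : ℕ) + al P.f v := h.jc.ps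
  have q2 : v.md = true → T4 P (o + 1) + nd v (v.c + P.K + 20) ≤
    Vee P (o + 1) 0 v + 8 * (0 : ℕ) + al P.f v := h.jc.pv
  have q3 : TP P (o + 1) v ≤ Pee P (o + 1) 0 v := A1_pp h
  have q4 : (v.c + 1) * (v.c - (P.f + v.m)) + v.X ≤ 12 * (v.c + 1) + 0 := h.jc.yi
  rw [T4_succ] at q1 q2
  rw [TP_succ] at q3
  push_cast at q1 q2
  refine gJC (v := v) ⟨st_L h.jc.sn, rfl, hI2, h.jc.y, by omega, ?_, ?_, ?_⟩
  · show T4 P o ≤ Psi P o 0 v + 8 * I + al P.f v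
    linarith
  · intro hmd
    have := q2 hmd
    show T4 P o + nd v (v.c + P.K + 20) ≤ Vee P o 0 v + 8 * I + al P.f v
    linarith
  · intro _
    show TP P o v ≤ Pee P o 0 v + 8 * I
    linarith

/-- attack of a left element -/
theorem A1_h {o r u μ ν cb : ℕ} {β : Multiset ℕ} (h : CL P ⟨o + 1, 0, r, u, μ, ν, cb, β⟩ v) :
    Good P ⟨o, 0, r, u, μ, ν, cb, 0 ::ₘ β⟩ (o + 1) := by
  have hK := A1_K P
  have hK' : (51 : ℤ) ≤ P.K := by exact_mod_cast hK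
  obtain ⟨p1, p2, p3⟩ := st_h_pot (P := P) (ra := 0) (ra' := 0) (I := o + 1) h.jc.sn (by omega)
  have q1 : T4 P (o + 1) ≤ Psi P (o + 1) 0 v + 8 * (0 : ℕ) + al P.f v := h.jc.ps
  have q2 : v.md = true → T4 P (o + 1) + nd v (v.c + P.K + 20) ≤
    Vee P (o + 1) 0 v + 8 * (0 : ℕ) + al P.f v := h.jc.pv
  have q3 : TP P (o + 1) v ≤ Pee P (o + 1) 0 v := A1_pp h
  have q4 : (v.c + 1) * (v.c - (P.f + v.m)) + v.X ≤ 12 * (v.c + 1) + 0 := h.jc.yi
  rw [T4_succ] at q1 q2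
  rw [TP_succ] at q3
  push_cast at q1 q2
  refine gJC (v := { v with n := v.n + 1 }) ⟨st_h h.jc.sn, rfl, le_rfl, h.jc.y, ?_, ?_, ?_, ?_⟩
  · show (v.c + 1) * (v.c - (P.f + v.m)) + v.X ≤ 12 * (v.c + 1) + (o + 1)
    omega
  · show T4 P o ≤ Psi P o 0 { v with n := v.n + 1 } + 8 * (o + 1 : ℕ) + al P.f v
    linarith
  · intro hmd
    have q5 := q2 hmd
    have q6 := p2 hmd
    have q7 : nd { v with n := v.n + 1 } (v.c + P.K + 20) ≤ nd v (v.c + P.K + 20) := by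
      unfold nd
      have : max 0 ((v.c : ℤ) + P.K + 20 - (((v.n + 1 : ℕ) : ℤ) * v.d + v.p)) ≤
          max 0 ((v.c : ℤ) + P.K + 20 - ((v.n : ℤ) * v.d + v.p)) := by
        refine max_le_max le_rfl ?_
        have h9 : (0 : ℤ) ≤ v.d := Int.natCast_nonneg _
        push_cast
        nlinarith
      exact mul_le_mul_of_nonneg_left this (by norm_num)
    show T4 P o + nd { v with n := v.n + 1 } (v.c + P.K + 20) ≤
      Vee P o 0 { v with n := v.n + 1 } + 8 * (o + 1 : ℕ) + al P.f v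
    linarith
  · intro _
    show TP P o v ≤ Pee P o 0 { v with n := v.n + 1 } + 8 * (o + 1 : ℕ)
    linarith

theorem A1_yi {o r u μ ν cb : ℕ} {β : Multiset ℕ} (h : CL P ⟨o + 1, 0, r, u, μ, ν, cb, β⟩ v)
    {v' : Vd} (hc : v'.c = v.c) (hm : v'.m + 1 = v.m) {X : ℕ}
    (hX : v'.X ≤ v.X + X) (hI : v.c + 1 + X ≤ I) :
    v'.c ≤ P.f + v'.m + 13 ∧
      (v'.c + 1) * (v'.c - (P.f + v'.m)) + v'.X ≤ 12 * (v'.c + 1) + I := by
  have q4 : (v.c + 1) * (v.c - (P.f + v.m)) + v.X ≤ 12 * (v.c + 1) + 0 := h.jc.yi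
  have q5 := (A1_y h).1
  rw [hc]
  refine ⟨by omega, ?_⟩
  have q6 : (v.c + 1) * (v.c - (P.f + v'.m)) ≤ (v.c + 1) * (v.c - (P.f + v.m) + 1) :=
    Nat.mul_le_mul_left _ (by omega)
  rw [Nat.mul_add, Nat.mul_one] at q6
  omega

/-- attack of a base element -/
theorem A1_T {o r r' u μ ν cb j : ℕ} {γ : Multiset ℕ}
    (h : CL P ⟨o + 1, 0, r, u, μ, ν, cb, j ::ₘ γ⟩ v) (hI : o ≤ I + j) (hI2 : I ≤ o + 1) :
    Good P ⟨o, 0, r', u, μ + 1, ν, cb, 0 ::ₘ γ⟩ I := by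
  have hK := A1_K P
  have hK' : (51 : ℤ) ≤ P.K := by exact_mod_cast hK
  obtain ⟨b1, b2, b3⟩ := A1_bar h
  have b1' : 2 * v.c + 12 * P.K ≤ o + 1 := b1
  have hj : j ≤ v.c := by
    obtain ⟨τ, γ', -, hjc, -⟩ := h.jc.sn.hR
    exact hjc j (Multiset.mem_cons_self j γ)
  obtain ⟨v', s1, s2, s3, s4, s5, s6, s7, s8, s9, s10, s11⟩ :=
    st_T (P := P) (v := v) (o := o) (u := u) (μ := μ) (j := j) (γ := γ) h.jc.sn h.M h.jc.y
  obtain ⟨p1, -, p2, p3⟩ := s11 0 0 I (by omega)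
  have q1 : T4 P (o + 1) ≤ Psi P (o + 1) 0 v + 8 * (0 : ℕ) + al P.f v := h.jc.ps
  have q2 : v.md = true → T4 P (o + 1) + nd v (v.c + P.K + 20) ≤
    Vee P (o + 1) 0 v + 8 * (0 : ℕ) + al P.f v := h.jc.pv
  have q3 : TP P (o + 1) v ≤ Pee P (o + 1) 0 v := A1_pp h
  rw [T4_succ] at q1 q2
  push_cast at q1 q2
  obtain ⟨y1, y2⟩ := A1_yi (I := I) h s4 s5 (v' := v') (X := v.c + 2 - j) (by omega) (by omega)
  refine gJC (v := v') ⟨s1, rfl, hI2, y1, y2, ?_, ?_, ?_⟩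
  · show T4 P o ≤ Psi P o 0 v' + 8 * I + al P.f v'
    linarith
  · intro hmd
    have q5 := q2 (s8 hmd)
    have q6 := p2 hmd
    have q7 := s10 (v.c + P.K + 20) hmd
    have h9 : (0 : ℤ) ≤ (P.f : ℤ) := Int.natCast_nonneg _
    have h10 : (0 : ℤ) ≤ (v.m : ℤ) := Int.natCast_nonneg _
    show T4 P o + nd v' (v'.c + P.K + 20) ≤ Vee P o 0 v' + 8 * I + al P.f v'
    rw [s4]
    linarith
  · intro _
    show TP P o v' ≤ Pee P o 0 v' + 8 * I
    linarith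

/-- attack of a main start -/
theorem A1_F {o r r' u μ ν cb : ℕ} {β : Multiset ℕ}
    (h : CL P ⟨o + 1, 0, r, u, μ, ν, cb, β⟩ v) (hI : I = o + 1) :
    Good P ⟨o, 0, r', u, μ + 1, ν, cb, β⟩ I := by
  have hK := A1_K P
  have hK' : (51 : ℤ) ≤ P.K := by exact_mod_cast hK
  obtain ⟨b1, b2, b3⟩ := A1_bar h
  have b1' : 2 * v.c + 12 * P.K ≤ o + 1 := b1
  obtain ⟨v', s1, s2, s3, s4, s5, s6, s8, s9, s10, s11⟩ :=
    st_F (P := P) (v := v) (o := o) (u := u) (μ := μ) (β := β) h.jc.sn h.M h.jc.y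
  obtain ⟨p1, -, p2, p3⟩ := s11 0 0 I (by omega)
  have q1 : T4 P (o + 1) ≤ Psi P (o + 1) 0 v + 8 * (0 : ℕ) + al P.f v := h.jc.ps
  have q2 : v.md = true → T4 P (o + 1) + nd v (v.c + P.K + 20) ≤
    Vee P (o + 1) 0 v + 8 * (0 : ℕ) + al P.f v := h.jc.pv
  have q3 : TP P (o + 1) v ≤ Pee P (o + 1) 0 v := A1_pp h
  rw [T4_succ] at q1 q2
  push_cast at q1 q2
  obtain ⟨y1, y2⟩ := A1_yi (I := I) h s4 s5 (v' := v') (X := v.c) (by omega) (by omega)
  refine gJC (v := v') ⟨s1, rfl, by show I ≤ o + 1; omega, y1, y2, ?_, ?_, ?_⟩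
  · show T4 P o ≤ Psi P o 0 v' + 8 * I + al P.f v'
    linarith
  · intro hmd
    have q5 := q2 (s8 hmd)
    have q6 := p2 hmd
    have q7 := s10 (v.c + P.K + 20) hmd
    have h9 : (0 : ℤ) ≤ (P.f : ℤ) := Int.natCast_nonneg _
    have h10 : (0 : ℤ) ≤ (v.m : ℤ) := Int.natCast_nonneg _
    show T4 P o + nd v' (v'.c + P.K + 20) ≤ Vee P o 0 v' + 8 * I + al P.f v'
    rw [s4]
    linarith
  · intro _
    show TP P o v' ≤ Pee P o 0 v' + 8 * I
    linarith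

theorem att_CL (h : CL P σ v) (ha : Att P.W σ σ' I) : Good P σ' I := by
  obtain ⟨b1, b2, b3⟩ := A1_bar h
  have hK := A1_K P
  have ha0 := h.jc.a
  have hE := h.jc.sn.hE
  obtain ⟨τ, γ', -, hjc, -⟩ := h.jc.sn.hR
  cases ha with
  | lR o a r u μ ν cb β hao =>
    obtain rfl : a = 0 := ha0
    have hE' : P.W ≤ u + v.E := hE
    have b2' : 2 * v.E + 12 * P.K ≤ o + 1 := b2
    exact A1_L h (by omega) (by omega)
  | lA o a r u μ ν cb β =>
    have : a + 1 = 0 := ha0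
    omega
  | hR o a r u μ ν cb β hao =>
    obtain rfl : a = 0 := ha0
    exact A1_h h
  | hA o a r u μ ν cb β =>
    have : a + 1 = 0 := ha0
    omega
  | b0 o r u μ ν cb j γ =>
    have hj : j ≤ v.c := hjc j (Multiset.mem_cons_self j γ)
    have b1' : 2 * v.c + 12 * P.K ≤ o + 1 := b1
    exact A1_T h (by omega) (by omega)
  | bA o a r u μ ν cb j γ =>
    have : a + 1 = 0 := ha0
    omega
  | bC o a r u μ ν cb j γ hh =>
    obtain rfl : a = 0 := ha0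
    rw [mul_zero] at hh ⊢
    exact A1_T h (by omega) (by omega)
  | bR o a r u μ ν cb j γ hh =>
    obtain rfl : a = 0 := ha0
    have hj : j ≤ v.c := hjc j (Multiset.mem_cons_self j γ)
    have b1' : 2 * v.c + 12 * P.K ≤ o + 1 := b1
    rw [mul_zero] at hh
    omega
  | f0 o r u μ ν cb β =>
    exact A1_F h rfl
  | fA o a r u μ ν cb β =>
    have : a + 1 = 0 := ha0
    omega
  | fC o a r u μ ν cb β hh =>
    obtain rfl : a = 0 := ha0
    exact A1_F h (by rw [mul_zero]; rfl)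
  | ws o a r u μ ν β =>
    have : a + 1 = 0 := ha0
    omega
  | wl o a u μ ν cb β hh =>
    have : a + 1 = 0 := ha0
    omega
  | r4 o a r u μ ν cb β hh =>
    obtain rfl : a = 0 := ha0
    rw [mul_zero]
    have q1 : T4 P o ≤ Psi P o 0 v + 8 * (0 : ℕ) + al P.f v := h.jc.ps
    have q2 : v.md = true → T4 P o + nd v (v.c + P.K + 20) ≤
      Vee P o 0 v + 8 * (0 : ℕ) + al P.f v := h.jc.pv
    have q3 : TP P o v ≤ Pee P o 0 v := A1_pp h
    have q4 : (v.c + 1) * (v.c - (P.f + v.m)) + v.X ≤ 12 * (v.c + 1) + 0 := h.jc.yi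
    have hI0 : (0 : ℤ) ≤ ((o + 1 - 0 : ℕ) : ℤ) := Int.natCast_nonneg _
    refine gJC (v := v) ⟨h.jc.sn, rfl, le_rfl, h.jc.y, ?_, ?_, ?_, ?_⟩
    · omega
    · show T4 P o ≤ Psi P o 0 v + 8 * (o + 1 - 0 : ℕ) + al P.f v
      push_cast at q1
      linarith
    · intro hmd
      have := q2 hmd
      show T4 P o + nd v (v.c + P.K + 20) ≤ Vee P o 0 v + 8 * (o + 1 - 0 : ℕ) + al P.f v
      push_cast at this
      linarith
    · intro _
      show TP P o v ≤ Pee P o 0 v + 8 * (o + 1 - 0 : ℕ)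
      linarith
  | r5f o a r u μ ν cb β =>
    obtain rfl : a = 0 := ha0
    have hM : μ + 1 + 1 ≤ v.E := h.M
    obtain ⟨s1, s2⟩ := st_5f (P := P) (v := v) (o := o) (u := u) (μ := μ) (β := β) h.jc.sn
    obtain ⟨e1, e2, e3⟩ := s2 0
    have q1 : T4 P o ≤ Psi P o 0 v + 8 * (0 : ℕ) + al P.f v := h.jc.ps
    have q2 : v.md = true → T4 P o + nd v (v.c + P.K + 20) ≤
      Vee P o 0 v + 8 * (0 : ℕ) + al P.f v := h.jc.pv
    have q3 : TP P o v ≤ Pee P o 0 v := A1_pp h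
    have ho : (0 : ℤ) ≤ o := Int.natCast_nonneg _
    refine gJC (v := { v with E := v.E - 1 }) ⟨s1, rfl, Nat.zero_le _, h.jc.y, h.jc.yi, ?_, ?_, ?_⟩
    · show T4 P o ≤ Psi P o 0 { v with E := v.E - 1 } + 8 * (0 : ℕ) + al P.f v
      rw [e1]
      linarith
    · intro hmd
      have := q2 hmd
      show T4 P o + nd v (v.c + P.K + 20) ≤
        Vee P o 0 { v with E := v.E - 1 } + 8 * (0 : ℕ) + al P.f v
      rw [e2]
      linarith
    · intro _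
      show TP P o v ≤ Pee P o 0 { v with E := v.E - 1 } + 8 * (0 : ℕ)
      rw [e3]
      push_cast
      linarith
  | r5b o a r u μ ν cb j γ =>
    obtain rfl : a = 0 := ha0
    exact gJC (v := v) ⟨st_5b h.jc.sn, rfl, Nat.zero_le _, h.jc.y, h.jc.yi, h.jc.ps, h.jc.pv,
      h.jc.pp⟩
  | nil =>
    exact gJC h.jc

end Pool.Agent.OCN.YC
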